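import Mathlib

namespace Pool.Agent.Results.MP_fffc5a_co.Small

open Finset

/-- `(u,v)`-union-intersecting: the union of any `u` distinct members meets the union of any
`v` distinct members. -/
def UI (u v : ℕ) {n : ℕ} (F : Finset (Finset (Fin n))) : Prop :=
  ∀ A B : Finset (Finset (Fin n)), A ⊆ F → B ⊆ F → A.card = u → B.card = v →
    (A.biUnion id ∩ B.biUnion id).Nonempty

/-- `m(n,k,u,v)`: the largest size of a `(u,v)`-union-intersecting family of `k`-sets. -/
noncomputable def m (n k u v : ℕ) : ℕ :=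
  sSup {s | ∃ F : Finset (Finset (Fin n)), (∀ X ∈ F, X.card = k) ∧ UI u v F ∧ F.card = s}

lemma le_all {n k : ℕ} (F : Finset (Finset (Fin n))) (hF : ∀ X ∈ F, X.card = k) :
    F.card ≤ n.choose k := by
  have : F ⊆ Finset.powersetCard k Finset.univ := fun X hX =>
    Finset.mem_powersetCard.2 ⟨Finset.subset_univ _, hF X hX⟩
  simpa using Finset.card_le_card this

lemma big {n k a : ℕ} (W : Finset (Fin n)) (A : Finset (Finset (Fin n)))
    (hA : A ⊆ Finset.powersetCard k W) (h2 : a.choose k < A.card) :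
    A.biUnion id ⊆ W ∧ a + 1 ≤ (A.biUnion id).card := by
  refine ⟨Finset.biUnion_subset.2 (fun S hS => (Finset.mem_powersetCard.1 (hA hS)).1), ?_⟩
  have h1 : A ⊆ Finset.powersetCard k (A.biUnion id) := fun S hS =>
    Finset.mem_powersetCard.2 ⟨Finset.subset_biUnion_of_mem id hS,
      (Finset.mem_powersetCard.1 (hA hS)).2⟩
  have h3 := Finset.card_le_card h1
  rw [Finset.card_powersetCard] at h3
  by_contra h
  have := Nat.choose_le_choose k (by omega : (A.biUnion id).card ≤ a)
  omega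

lemma full {n k u v a b : ℕ} (hu : a.choose k < u) (hv : b.choose k < v) (W : Finset (Fin n))
    (hW : W.card ≤ a + b + 1) : UI u v (Finset.powersetCard k W) := by
  intro A B hA hB cA cB
  obtain ⟨a1, a2⟩ := big (a := a) W A hA (by omega)
  obtain ⟨b1, b2⟩ := big (a := b) W B hB (by omega)
  have h1 := Finset.card_union_add_card_inter (A.biUnion id) (B.biUnion id)
  have h2 := Finset.card_le_card (Finset.union_subset a1 b1)
  exact Finset.card_pos.1 (by omega)

lemma ge_full {n k u v a b : ℕ} (hu : a.choose k < u) (hv : b.choose k < v) (W : Finset (Fin n))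
    (hW : W.card ≤ a + b + 1) : W.card.choose k ≤ m n k u v := by
  refine le_csSup ⟨n.choose k, ?_⟩ ⟨Finset.powersetCard k W,
    fun X hX => (Finset.mem_powersetCard.1 hX).2, full hu hv W hW, Finset.card_powersetCard _ _⟩
  rintro s ⟨F, h1, -, rfl⟩
  exact le_all F h1

lemma upper {k b u v c : ℕ} (hb : k ≤ b) (F : Finset (Finset (Fin (2 * b + 2))))
    (hF : ∀ X ∈ F, X.card = k) (hU : UI u v F) (h1 : (b + 1).choose k + u ≤ c + 1)
    (h2 : 2 * v ≤ c + 2) :
    F.card * (2 * b + 2 - k).choose (b + 1 - k) ≤ c * (2 * b + 1).choose b := by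
  classical
  obtain ⟨a, ha⟩ : ∃ a : Finset (Fin (2 * b + 2)) → ℕ,
      ∀ X, a X = (F.filter (fun S => S ⊆ X)).card := ⟨_, fun _ => rfl⟩
  obtain ⟨P, hP⟩ : ∃ P : Finset (Finset (Fin (2 * b + 2))),
      P = Finset.powersetCard (b + 1) Finset.univ := ⟨_, rfl⟩
  have hPm : ∀ X, X ∈ P ↔ X.card = b + 1 := by
    intro X; rw [hP]; simp
  have hPc : ∀ X ∈ P, Xᶜ ∈ P := by
    intro X hX
    rw [hPm] at hX ⊢
    rw [Finset.card_compl, Fintype.card_fin]
    omega
  have a1 : ∀ X ∈ P, a X ≤ (b + 1).choose k := by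
    intro X hX
    have : F.filter (fun S => S ⊆ X) ⊆ Finset.powersetCard k X := fun S hS =>
      Finset.mem_powersetCard.2 ⟨(Finset.mem_filter.1 hS).2, hF S (Finset.mem_filter.1 hS).1⟩
    have h3 := Finset.card_le_card this
    rw [Finset.card_powersetCard, (hPm X).1 hX] at h3
    rw [ha]; exact h3
  have a2 : ∀ X : Finset (Fin (2 * b + 2)), ¬ (u ≤ a X ∧ v ≤ a Xᶜ) := by
    rintro X ⟨g1, g2⟩
    rw [ha] at g1 g2
    obtain ⟨A, hA1, hA2⟩ := Finset.exists_subset_card_eq g1
    obtain ⟨B, hB1, hB2⟩ := Finset.exists_subset_card_eq g2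
    obtain ⟨x, hx⟩ := hU A B (hA1.trans (Finset.filter_subset _ _))
      (hB1.trans (Finset.filter_subset _ _)) hA2 hB2
    rw [Finset.mem_inter, Finset.mem_biUnion, Finset.mem_biUnion] at hx
    obtain ⟨⟨S, hS, hxS⟩, ⟨T, hT, hxT⟩⟩ := hx
    exact Finset.mem_compl.1 ((Finset.mem_filter.1 (hB1 hT)).2 hxT)
      ((Finset.mem_filter.1 (hA1 hS)).2 hxS)
  have a3 : ∀ X ∈ P, a X + a Xᶜ ≤ c := by
    intro X hX
    have b1 := a1 X hX
    have b2 := a1 _ (hPc X hX)
    have b3 := a2 X
    have b4 := a2 Xᶜ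
    rw [compl_compl] at b4
    omega
  have s1 : ∑ X ∈ P, a X = F.card * (2 * b + 2 - k).choose (b + 1 - k) := by
    simp only [ha, Finset.card_filter]
    rw [Finset.sum_comm]
    have : ∀ S ∈ F, (∑ X ∈ P, if S ⊆ X then 1 else 0) = (2 * b + 2 - k).choose (b + 1 - k) := by
      intro S hS
      rw [← Finset.card_filter, hP, Finset.card_filter_powersetCard_subset _ _ _
        (Finset.subset_univ S) (by rw [hF S hS]; omega), hF S hS, Finset.card_univ,
        Fintype.card_fin]
    rw [Finset.sum_congr rfl this, Finset.sum_const, smul_eq_mul]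
  have s2 : ∑ X ∈ P, a Xᶜ = ∑ X ∈ P, a X :=
    Finset.sum_nbij' (fun X => Xᶜ) (fun X => Xᶜ) (fun X hX => hPc X hX) (fun X hX => hPc X hX)
      (fun X _ => compl_compl X) (fun X _ => compl_compl X) (fun X _ => rfl)
  have s3 := Finset.sum_le_card_nsmul P _ c a3
  rw [Finset.sum_add_distrib, s2, s1, hP, Finset.card_powersetCard, Finset.card_univ,
    Fintype.card_fin, smul_eq_mul, Nat.choose_succ_succ' (2 * b + 1) b,
    Nat.choose_symm_half] at s3
  nlinarith

lemma ident {k b : ℕ} (hb : k ≤ b) :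
    ((b + 1).choose k + b.choose k) * (2 * b + 1).choose b =
      (2 * b + 1).choose k * (2 * b + 2 - k).choose (b + 1 - k) := by
  have e1 : (2 * b + 1).choose (b + 1) * (b + 1).choose k =
      (2 * b + 1).choose k * (2 * b + 1 - k).choose (b + 1 - k) := Nat.choose_mul (by omega)
  have e2 : (2 * b + 1).choose b * b.choose k =
      (2 * b + 1).choose k * (2 * b + 1 - k).choose (b - k) := Nat.choose_mul hb
  rw [Nat.choose_symm_half] at e1
  rw [show 2 * b + 2 - k = (2 * b + 1 - k) + 1 by omega, show b + 1 - k = (b - k) + 1 by omega,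
    Nat.choose_succ_succ' (2 * b + 1 - k) (b - k)]
  rw [show b + 1 - k = (b - k) + 1 by omega] at e1
  nlinarith

lemma all_parts (k u v : ℕ) (hu : 1 ≤ u) (huv : u ≤ v) :
    (∀ a b n : ℕ, a.choose k < u → b.choose k < v → n ≤ a + b + 1 → m n k u v = n.choose k) ∧
    (∀ b : ℕ, k ≤ b → m (2 * b + 2) k u v * (2 * b + 2 - k).choose (b + 1 - k) ≤
      max ((b + 1).choose k + u - 1) (2 * v - 2) * (2 * b + 1).choose b) ∧
    (∀ b : ℕ, k ≤ b → u = b.choose k + 1 → 2 * v ≤ (b + 1).choose k + b.choose k + 2 →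
      m (2 * b + 2) k u v = (2 * b + 1).choose k) := by
  have hmem : ∀ n : ℕ, ∃ F : Finset (Finset (Fin n)), (∀ X ∈ F, X.card = k) ∧ UI u v F ∧
      F.card = m n k u v := by
    intro n
    refine Nat.sSup_mem (s := {s | ∃ F : Finset (Finset (Fin n)), (∀ X ∈ F, X.card = k) ∧
      UI u v F ∧ F.card = s}) ⟨_, ∅, fun X hX => absurd hX (Finset.notMem_empty X),
        fun A B hA _ cA _ => ?_, rfl⟩ ⟨n.choose k, ?_⟩
    · rw [Finset.subset_empty.1 hA, Finset.card_empty] at cA
      omega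
    · rintro s ⟨F, h1, -, rfl⟩
      exact le_all F h1
  refine ⟨fun a b n ha hb hn => le_antisymm ?_ ?_, fun b hb => ?_,
    fun b hb h2 hv => le_antisymm ?_ ?_⟩
  · obtain ⟨G, g1, -, g3⟩ := hmem n
    rw [← g3]
    exact le_all G g1
  · have := ge_full ha hb (Finset.univ : Finset (Fin n)) (by simpa using hn)
    simpa using this
  · obtain ⟨F, f1, f2, f3⟩ := hmem (2 * b + 2)
    rw [← f3]
    have m1 := le_max_left ((b + 1).choose k + u - 1) (2 * v - 2)
    have m2 := le_max_right ((b + 1).choose k + u - 1) (2 * v - 2)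
    exact upper hb F f1 f2 (by omega) (by omega)
  · obtain ⟨F, f1, f2, f3⟩ := hmem (2 * b + 2)
    have := upper (c := (b + 1).choose k + b.choose k) hb F f1 f2 (by omega) (by omega)
    rw [f3, ident hb] at this
    exact Nat.le_of_mul_le_mul_right this (Nat.choose_pos (by omega))
  · obtain ⟨W, -, hW⟩ := Finset.exists_subset_card_eq
      (s := (Finset.univ : Finset (Fin (2 * b + 2)))) (n := 2 * b + 1) (by simp)
    have := ge_full (k := k) (u := u) (v := v) (a := b) (b := b) (by omega) (by omega) W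
      (by omega)
    rwa [hW] at this

theorem result (k b v : ℕ) (hb : k ≤ b) (hv1 : b.choose k + 1 ≤ v)
    (hv2 : 2 * v ≤ (b + 1).choose k + b.choose k + 2) :
    m (2 * b + 2) k (b.choose k + 1) v = (2 * b + 1).choose k :=
  (all_parts k (b.choose k + 1) v (by omega) hv1).2.2 b hb rfl hv2

end Pool.Agent.Results.MP_fffc5a_co.Small
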